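import Mathlib
import Pool.Agent.H.MP_6a5936_nt.A

namespace Pool.Agent.Results.MP_6a5936_nt.Formula

open Polynomial Finset Pool.Agent.H.MP_6a5936_nt

def T (m n : ℕ) (a : ZMod n → ZMod m) : ZMod n → ZMod m := fun i => a i + a (i + 1)

noncomputable def cyc {α : Type} (g : α → α) (a : α) : ℕ :=
  sInf {P | 0 < P ∧ ∃ N, 0 < N ∧ ∀ k ≥ N, g^[k + P] a = g^[k] a}

noncomputable def pre {α : Type} (g : α → α) (a : α) : ℕ :=
  sInf {N | 0 < N ∧ ∀ k ≥ N, g^[k + cyc g a] a = g^[k] a}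

def f (p e n : ℕ) : ℕ :=
  if Odd n then (if p = 2 then e else 0)
  else if p ∣ n then p ^ (n.factorization p - 1) * (e * (p - 1) + 1) else 1

section
variable {α : Type} [Finite α] (g : α → α) (a : α)

theorem rep : ∃ i d, 0 < d ∧ g^[i + d] a = g^[i] a := by
  obtain ⟨i, j, h, e⟩ := Finite.exists_ne_map_eq_of_infinite fun i : ℕ => g^[i] a
  rcases lt_or_gt_of_ne h with h | h
  · exact ⟨i, j - i, by omega, by rw [show i + (j - i) = j by omega, e]⟩
  · exact ⟨j, i - j, by omega, by rw [show j + (i - j) = i by omega, e]⟩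

theorem cyc_mem : 0 < cyc g a ∧ ∃ N, 0 < N ∧ ∀ k ≥ N, g^[k + cyc g a] a = g^[k] a := by
  obtain ⟨i, d, h, e⟩ := rep g a
  refine Nat.sInf_mem (s := {P | 0 < P ∧ ∃ N, 0 < N ∧ ∀ k ≥ N, g^[k + P] a = g^[k] a})
    ⟨d, h, i + 1, by omega, fun k hk => ?_⟩
  obtain ⟨t, rfl⟩ := Nat.exists_eq_add_of_le' (show i ≤ k by omega)
  rw [add_assoc, Function.iterate_add_apply, e, Function.iterate_add_apply]

theorem pre_mem : 0 < pre g a ∧ ∀ k ≥ pre g a, g^[k + cyc g a] a = g^[k] a :=
  Nat.sInf_mem (s := {N | 0 < N ∧ ∀ k ≥ N, g^[k + cyc g a] a = g^[k] a}) (cyc_mem g a).2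

theorem pre_le {N Q : ℕ} (hN : 0 < N) (hQ : 0 < Q) (h : g^[N + Q] a = g^[N] a) : pre g a ≤ N := by
  refine Nat.sInf_le ⟨hN, fun k hk => ?_⟩
  have h1 : ∀ j, ∀ k ≥ N, g^[k + Q * j] a = g^[k] a := fun j k hk => by
    induction j with
    | zero => rfl
    | succ j ih =>
      obtain ⟨t, rfl⟩ := Nat.exists_eq_add_of_le' hk
      rw [← ih, show t + N + Q * (j + 1) = t + Q * j + (N + Q) by ring, Function.iterate_add_apply,
        h, ← Function.iterate_add_apply, add_right_comm]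
  rw [← h1 (pre g a) k hk, ← h1 (pre g a) _ (hk.trans (Nat.le_add_right _ _)), add_right_comm]
  exact (pre_mem g a).2 _ (by nlinarith)

end

def S (m n : ℕ) : Module.End ℤ (ZMod n → ZMod m) where
  toFun a i := a (i + 1)
  map_add' _ _ := rfl
  map_smul' _ _ := rfl

theorem S_pow (m n k : ℕ) (a : ZMod n → ZMod m) (i : ZMod n) : (S m n ^ k) a i = a (i + k) := by
  induction k generalizing i with
  | zero => simp
  | succ k ih =>
    rw [pow_succ', Module.End.mul_apply]
    exact (ih (i + 1)).trans (by push_cast; ring_nf)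

theorem T_iter (m n k : ℕ) (a : ZMod n → ZMod m) : (T m n)^[k] a = ((1 + S m n) ^ k) a := by
  rw [Module.End.pow_apply]; rfl

theorem model (m n : ℕ) : ∃ (R : Type) (_ : CommRing R) (x : R)
    (ψ : R →+* Module.End ℤ (ZMod n → ZMod m)), ψ (-x) = 1 + S m n ∧ ψ (1 + x) = -S m n ∧
      (1 + x) ^ n = (-1) ^ n ∧ (m : R) = 0 := by
  let φ : ℤ[X] →+* Module.End ℤ (ZMod n → ZMod m) := (aeval (-(1 + S m n))).toRingHom
  have h1 : RingHom.kerLift φ (Ideal.Quotient.mk _ X) = -(1 + S m n) := by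
    rw [RingHom.kerLift_mk]; simp [φ]
  have h2 : RingHom.kerLift φ (1 + Ideal.Quotient.mk _ X) = -S m n := by
    rw [map_add, map_one, h1]; abel
  refine ⟨_, inferInstance, Ideal.Quotient.mk _ X, RingHom.kerLift φ, by rw [map_neg, h1, neg_neg],
    h2, RingHom.kerLift_injective φ ?_, RingHom.kerLift_injective φ ?_⟩
  · have : S m n ^ n = 1 := by ext a i; simp [S_pow]
    rw [map_pow, h2, neg_pow, this, mul_one, map_pow, map_neg, map_one]
  · rw [map_natCast, map_zero]
    ext a i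
    simp

theorem result (m n : ℕ) (hm : 0 < m) (hn : 0 < n) :
    (∀ a, 0 < cyc (T m n) a ∧ 0 < pre (T m n) a) ∧
    IsGreatest (Set.range (pre (T m n)))
      (max 1 (m.primeFactors.sup fun p => f p (m.factorization p) n)) := by
  haveI : NeZero m := ⟨hm.ne'⟩
  haveI : NeZero n := ⟨hn.ne'⟩
  obtain ⟨R, _, x, ψ, e1, e2, hx, h0⟩ := model m n
  have it : ∀ k a, (T m n)^[k] a = ψ ((-x) ^ k) a := fun k a => by rw [T_iter, map_pow, e1]
  set N := max 1 (m.primeFactors.sup fun p => f p (m.factorization p) n) with hN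
  have up : ∀ a, pre (T m n) a ≤ N := fun a => by
    obtain ⟨c, hc⟩ := A.upper x (N := N) hm hn hx h0 fun p hp =>
      (le_sup (f := fun p => f p (m.factorization p) n) hp).trans (le_max_right _ _)
    have h1 : ∀ i, (-x) ^ N = (-c) ^ i * (-x) ^ (N + i) := fun i => by
      induction i with
      | zero => simp
      | succ i ih =>
        rw [neg_pow x] at ih ⊢
        rw [neg_pow x (N + i)] at ih
        rw [neg_pow x (N + (i + 1))]
        linear_combination ih + (-c) ^ i * (-1) ^ (N + i) * x ^ i * hc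
    obtain ⟨i, d, hd, e⟩ := rep (T m n) ((T m n)^[N] a)
    refine pre_le _ _ (Q := d) (by omega) hd ?_
    rw [← Function.iterate_add_apply, ← Function.iterate_add_apply, it, it] at e
    rw [it, it, pow_add, h1 i, mul_assoc, ← pow_add, map_mul, map_mul, Module.End.mul_apply,
      Module.End.mul_apply, add_comm N i, ← e, add_right_comm]
  refine ⟨fun a => ⟨(cyc_mem _ a).1, (pre_mem _ a).1⟩, ?_, by rintro _ ⟨a, rfl⟩; exact up a⟩
  by_cases h1 : N ≤ 1
  · exact ⟨0, le_antisymm (up 0) (h1.trans (pre_mem _ _).1)⟩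
  have h2 : N = m.primeFactors.sup fun p => f p (m.factorization p) n := by omega
  obtain ⟨p, hp, h3⟩ := exists_mem_eq_sup m.primeFactors (nonempty_iff_ne_empty.2 fun h => by
    rw [h, sup_empty] at h2; exact h1 (h2.le.trans bot_le)) fun p => f p (m.factorization p) n
  have pp := Nat.prime_of_mem_primeFactors hp
  obtain ⟨j, hj⟩ := Nat.exists_eq_add_of_le' ((pp.dvd_iff_one_le_factorization hm.ne').1
    (Nat.dvd_of_mem_primeFactors hp))
  obtain ⟨m', hm'⟩ := Nat.ordProj_dvd m p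
  rw [h3, hj] at h2
  rw [hj] at hm'
  obtain ⟨a, ε, k1, k2⟩ := A.lower x hn hx pp (j := j) (m' := m') (by rw [← hm', h0])
    (show 1 < f p (j + 1) n by omega)
  change x ^ f p (j + 1) n * a = 0 at k1
  change x ^ (f p (j + 1) n - 1) * a = _ at k2
  rw [← h2] at k1 k2
  refine ⟨ψ a (Pi.single 0 1), le_antisymm (up _) (not_lt.1 fun hlt => ?_)⟩
  have k3 := (pre_mem (T m n) (ψ a (Pi.single 0 1))).2 (N - 1) (by omega)
  obtain ⟨t, ht⟩ := Nat.exists_eq_add_of_le (show N ≤ N - 1 + cyc (T m n) (ψ a (Pi.single 0 1)) by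
    have := (cyc_mem (T m n) (ψ a (Pi.single 0 1))).1; omega)
  rw [ht, it, it, ← Module.End.mul_apply, ← Module.End.mul_apply, ← map_mul, ← map_mul,
    show (-x) ^ (N + t) * a = 0 by
      rw [neg_pow]; linear_combination (-1) ^ (N + t) * x ^ t * k1,
    neg_pow, mul_assoc, k2] at k3
  have k4 := congrFun k3 0
  have k5 : ψ (∑ i ∈ range n, (ε * (1 + x)) ^ i) (Pi.single 0 1) 0 = 1 := by
    rw [map_sum, LinearMap.sum_apply, Finset.sum_apply, sum_eq_single_of_mem 0 (mem_range.2 hn)]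
    · simp
    · intro i hi h
      rw [mul_pow, map_mul, map_pow, map_pow, e2, map_intCast, neg_pow, ← mul_assoc,
        show ((ε : Module.End ℤ (ZMod n → ZMod m)) ^ i * (-1) ^ i) = ((ε ^ i * (-1) ^ i : ℤ) :
          Module.End ℤ (ZMod n → ZMod m)) by push_cast; rfl,
        Module.End.mul_apply, Module.End.intCast_apply, Pi.smul_apply, S_pow, zero_add,
        Pi.single_eq_of_ne fun e => h (Nat.eq_zero_of_dvd_of_lt
          ((ZMod.natCast_eq_zero_iff _ _).1 e) (mem_range.1 hi)), smul_zero]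
  rw [← mul_assoc, show ((-1 : R) ^ (N - 1) * (((-p) ^ j * m' : ℤ) : R)) =
    (((-1) ^ (N - 1) * ((-p) ^ j * m') : ℤ) : R) by push_cast; rfl, map_mul, map_intCast,
    Module.End.mul_apply, Module.End.intCast_apply, Pi.smul_apply, k5, map_zero, zsmul_one] at k4
  have k6 := Int.natAbs_dvd_natAbs.2 ((ZMod.intCast_zmod_eq_zero_iff_dvd _ _).1 k4.symm)
  simp only [Int.natAbs_mul, Int.natAbs_pow, Int.natAbs_neg, Int.natAbs_one, one_pow, one_mul,
    Int.natAbs_natCast] at k6
  have m0 : 0 < p ^ j * m' := Nat.pos_of_ne_zero fun h => by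
    rw [pow_succ, mul_right_comm, h] at hm'; omega
  have := Nat.le_of_dvd m0 k6
  have := pp.two_le
  rw [pow_succ, mul_right_comm] at hm'
  nlinarith

end Pool.Agent.Results.MP_6a5936_nt.Formula
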